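import Pool.Agent.H60.BernForm

/-!
# Admissible functions whose sign pattern is symmetric in large blocks

If the sign of an admissible function depends only on the numbers of ones in the blocks of a
partition into blocks of size at least `P`, then its degree is at least `√(n P) / 6`.
-/

open Finset

namespace Pool.Agent.Results.MP_1e0d25_lc.BlockSymmetric

/-- The point of `{-1, 1}` encoded by a bit: `true` is `1` and `false` is `-1`. -/
def sgn (b : Bool) : ℝ := if b then 1 else -1

/-- The Fourier coefficient of `f` at `S`. -/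
noncomputable def coef {n : ℕ} (f : (Fin n → Bool) → ℝ) (S : Finset (Fin n)) : ℝ :=
  (∑ x : Fin n → Bool, f x * ∏ i ∈ S, sgn (x i)) / 2 ^ n

open Classical in
/-- The degree of `f`: the largest `|S|` with a nonzero Fourier coefficient. -/
noncomputable def degree {n : ℕ} (f : (Fin n → Bool) → ℝ) : ℕ :=
  (Finset.univ.filter (fun S : Finset (Fin n) => coef f S ≠ 0)).sup Finset.card

/-- The admissible functions. -/
structure Admissible {n : ℕ} (f : (Fin n → Bool) → ℝ) : Prop where
  gap : ∀ x, f x ∈ Set.Icc (-1 : ℝ) (-(2 / 3)) ∪ Set.Icc (2 / 3 : ℝ) 1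
  high : ∀ x, (n : ℝ) / 2 ≤ ∑ i, sgn (x i) → f x ∈ Set.Icc (2 / 3 : ℝ) 1
  low : ∀ x, ∑ i, sgn (x i) ≤ -((n : ℝ) / 2) → f x ∈ Set.Icc (-1 : ℝ) (-(2 / 3))

/-- The least degree of an admissible function on `{-1, 1} ^ n`. -/
noncomputable def D (n : ℕ) : ℕ :=
  sInf {d : ℕ | ∃ f : (Fin n → Bool) → ℝ, Admissible f ∧ degree f = d}

variable {n : ℕ}

/-- The number of ones of `x` in the block with label `t`; `b i` is the label of `i`. -/
def count {n : ℕ} (b : Fin n → ℕ) (x : Fin n → Bool) (t : ℕ) : ℕ :=
  (univ.filter fun i => b i = t ∧ x i = true).card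

/-- The number of ones of `x`. -/
def ones (x : Fin n → Bool) : ℕ := (univ.filter fun i => x i = true).card

/-- The point `x` with the bit `i` flipped. -/
def flip (x : Fin n → Bool) (i : Fin n) : Fin n → Bool := Function.update x i (!x i)

/-- Fourier inversion. -/
lemma inversion (f : (Fin n → Bool) → ℝ) (x : Fin n → Bool) :
    f x = ∑ S, coef f S * ∏ i ∈ S, sgn (x i) := by
  unfold coef
  have h1 : ∀ S : Finset (Fin n), (∑ y : Fin n → Bool, f y * ∏ i ∈ S, sgn (y i)) / 2 ^ n *
      ∏ i ∈ S, sgn (x i) = ∑ y : Fin n → Bool, f y / 2 ^ n * ∏ i ∈ S, (sgn (y i) * sgn (x i)) := by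
    intro S
    rw [Finset.sum_div, Finset.sum_mul]
    apply Finset.sum_congr rfl
    intro y _
    rw [Finset.prod_mul_distrib]; ring
  simp_rw [h1]
  rw [Finset.sum_comm]
  have h2 : ∀ y : Fin n → Bool, ∑ S : Finset (Fin n), f y / 2 ^ n * ∏ i ∈ S, (sgn (y i) * sgn (x i)) =
      if y = x then f x else 0 := by
    intro y
    rw [← Finset.mul_sum, ← Finset.powerset_univ, ← Finset.prod_one_add]
    by_cases hy : y = x
    · subst hy
      have : ∀ i, 1 + sgn (y i) * sgn (y i) = 2 := by
        intro i; cases y i <;> norm_num [sgn]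
      simp_rw [this]
      simp
    · rw [if_neg hy]
      obtain ⟨i, hi⟩ : ∃ i, y i ≠ x i := by
        by_contra hcon; push Not at hcon; exact hy (funext hcon)
      rw [Finset.prod_eq_zero (Finset.mem_univ i), mul_zero]
      cases h3 : y i <;> cases h4 : x i <;> simp_all [sgn]
  simp_rw [h2]
  simp

lemma degLE_degree (f : (Fin n → Bool) → ℝ) : Pool.Agent.H78.AM.DegLE (degree f) f := by
  classical
  refine ⟨coef f, fun T hT => ?_, fun x => inversion f x⟩
  by_contra hne
  have : T.card ≤ degree f := by
    unfold degree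
    exact Finset.le_sup (f := Finset.card) (Finset.mem_filter.2 ⟨Finset.mem_univ T, hne⟩)
  omega

lemma sum_sgn (x : Fin n → Bool) : ∑ i, sgn (x i) = 2 * (ones x : ℝ) - n := by
  have h1 : ∀ i, sgn (x i) = 2 * (if x i = true then 1 else 0) - 1 := by
    intro i; cases x i <;> norm_num [sgn]
  simp_rw [h1]
  rw [Finset.sum_sub_distrib, ← Finset.mul_sum]
  congr 1
  · unfold ones
    rw [Finset.card_filter]; push_cast; rfl
  · simp


lemma flip_flip (x : Fin n → Bool) (i : Fin n) : flip (flip x i) i = x := by
  funext j
  unfold flip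
  by_cases h : j = i
  · subst h; simp
  · rw [Function.update_of_ne h, Function.update_of_ne h]

lemma sum_flip (f : (Fin n → Bool) → ℝ) (i : Fin n) : ∑ x, f (flip x i) = ∑ x, f x :=
  Equiv.sum_comp (Function.Involutive.toPerm (fun x => flip x i) (fun x => flip_flip x i)) f

lemma count_eq_sum (b : Fin n → ℕ) (x : Fin n → Bool) (t : ℕ) :
    count b x t = ∑ i, if b i = t ∧ x i = true then 1 else 0 := by
  unfold count; rw [Finset.card_filter]

lemma ones_eq_sum (x : Fin n → Bool) : ones x = ∑ i, if x i = true then 1 else 0 := by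
  unfold ones; rw [Finset.card_filter]

/-- Raising a bit changes the count of its block by one. -/
lemma count_flip (b : Fin n → ℕ) (x : Fin n → Bool) (t : ℕ) (i : Fin n) (hi : x i = false) :
    count b (flip x i) t = count b x t + if b i = t then 1 else 0 := by
  rw [count_eq_sum, count_eq_sum]
  have h1 : ∀ j, (if b j = t ∧ flip x i j = true then 1 else 0) =
      (if b j = t ∧ x j = true then 1 else 0) + if j = i then (if b i = t then 1 else 0) else 0 := by
    intro j
    unfold flip
    by_cases hj : j = i
    · subst hj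
      rw [Function.update_self, hi]
      by_cases hb : b j = t <;> simp [hb]
    · rw [Function.update_of_ne hj, if_neg hj, add_zero]
  rw [Finset.sum_congr rfl (fun j _ => h1 j), Finset.sum_add_distrib, Finset.sum_ite_eq']
  simp

lemma ones_flip (x : Fin n → Bool) (i : Fin n) (hi : x i = false) :
    ones (flip x i) = ones x + 1 := by
  rw [ones_eq_sum, ones_eq_sum]
  have h1 : ∀ j, (if flip x i j = true then 1 else 0) =
      (if x j = true then 1 else 0) + if j = i then 1 else 0 := by
    intro j
    unfold flip
    by_cases hj : j = i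
    · subst hj
      rw [Function.update_self, hi]
      simp
    · rw [Function.update_of_ne hj, if_neg hj, add_zero]
  rw [Finset.sum_congr rfl (fun j _ => h1 j), Finset.sum_add_distrib, Finset.sum_ite_eq']
  simp

/-- The size of the block with label `t`. -/
def size (b : Fin n → ℕ) (t : ℕ) : ℕ := (univ.filter fun i => b i = t).card

lemma sum_size (b : Fin n → ℕ) : ∑ t ∈ univ.image b, size b t = n := by
  have h := Finset.card_eq_sum_card_fiberwise (f := b) (s := univ) (t := univ.image b)
    (fun i _ => by simp)
  rw [Finset.card_univ, Fintype.card_fin] at h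
  exact h.symm

lemma ones_eq_count (b : Fin n → ℕ) (x : Fin n → Bool) :
    ones x = ∑ t ∈ univ.image b, count b x t := by
  have h := Finset.card_eq_sum_card_fiberwise (f := b) (s := univ.filter fun i => x i = true)
    (t := univ.image b) (fun i _ => by simp)
  unfold ones
  rw [h]
  apply Finset.sum_congr rfl; intro t _
  unfold count
  rw [Finset.filter_filter]
  congr 1
  apply Finset.filter_congr; intro i _
  exact and_comm

/-- A point with a quarter of the bits set in every block. -/
lemma exists_start (b : Fin n → ℕ) :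
    ∃ x : Fin n → Bool, 4 * ones x ≤ n ∧ ∀ t, size b t / 4 ≤ count b x t := by
  classical
  have h1 : ∀ t, ∃ S ⊆ univ.filter (fun i : Fin n => b i = t), S.card = size b t / 4 := fun t =>
    Finset.exists_subset_card_eq (Nat.div_le_self _ _)
  choose S hS hc using h1
  set x : Fin n → Bool := fun i => decide (i ∈ S (b i)) with hx
  have h2 : ∀ t, count b x t = size b t / 4 := by
    intro t
    rw [← hc t]
    unfold count
    congr 1
    ext i
    rw [Finset.mem_filter]
    constructor
    · rintro ⟨_, h3, h4⟩
      rw [hx] at h4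
      have := of_decide_eq_true h4
      rwa [h3] at this
    · intro h3
      have h4 := (Finset.mem_filter.1 (hS t h3)).2
      refine ⟨Finset.mem_univ _, h4, ?_⟩
      rw [hx]
      simp only [decide_eq_true_eq]
      rw [h4]; exact h3
  refine ⟨x, ?_, fun t => (h2 t).ge⟩
  rw [ones_eq_count b, Finset.mul_sum]
  calc ∑ t ∈ univ.image b, 4 * count b x t ≤ ∑ t ∈ univ.image b, size b t := by
        apply Finset.sum_le_sum; intro t _
        rw [h2]; exact Nat.mul_div_le _ _
    _ = n := sum_size b

lemma exists_false {b : Fin n → ℕ} {x : Fin n → Bool} {t : ℕ} (h : count b x t < size b t) :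
    ∃ i, b i = t ∧ x i = false := by
  by_contra hcon
  push Not at hcon
  apply absurd h
  push Not
  unfold size count
  apply Finset.card_le_card
  intro i hi
  rw [Finset.mem_filter] at hi ⊢
  refine ⟨hi.1, hi.2, ?_⟩
  have := hcon i hi.2
  simpa using this

lemma count_lt {b : Fin n → ℕ} {x : Fin n → Bool} {i : Fin n} (h : x i = false) :
    count b x (b i) < size b (b i) := by
  unfold size count
  apply Finset.card_lt_card
  rw [Finset.ssubset_iff_of_subset]
  · refine ⟨i, by simp, by simp [h]⟩
  · intro j hj
    rw [Finset.mem_filter] at hj ⊢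
    exact ⟨hj.1, hj.2.1⟩

/-- The main inequality. -/
theorem main {P d : ℕ} {b : Fin n → ℕ} (hP : ∀ i, P ≤ size b (b i))
    {f : (Fin n → Bool) → ℝ} {F : (Fin n → Bool) → Bool}
    (hd : Pool.Agent.H78.AM.DegLE d f)
    (h1 : ∀ x, F x = true → 2/3 ≤ f x ∧ f x ≤ 1)
    (h0 : ∀ x, F x = false → -1 ≤ f x ∧ f x ≤ -(2/3))
    (hsym : ∀ x y, (∀ t, count b x t = count b y t) → F x = F y)
    (hlo : ∀ x, 4 * ones x ≤ n → F x = false)
    (hhi : ∀ x, 3 * n ≤ 4 * ones x → F x = true) :
    (n : ℝ) * P ≤ 36 * (d : ℝ) ^ 2 := by
  classical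
  -- a maximal zero
  obtain ⟨x₁, hx₁, hmax⟩ := Finset.exists_max_image
    (univ.filter fun x : Fin n → Bool => F x = false ∧ ∀ t, size b t / 4 ≤ count b x t) ones (by
      obtain ⟨x, hx, hx2⟩ := exists_start b
      exact ⟨x, Finset.mem_filter.2 ⟨Finset.mem_univ _, hlo x hx, hx2⟩⟩)
  rw [Finset.mem_filter] at hx₁
  obtain ⟨_, hF1, hq⟩ := hx₁
  set A : Finset (Fin n → Bool) := univ.filter fun x => ∀ t, count b x t = count b x₁ t with hA
  have memA : ∀ x, x ∈ A ↔ ∀ t, count b x t = count b x₁ t := by intro x; simp [hA]
  have hAF : ∀ x ∈ A, F x = false := by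
    intro x hx
    rw [hsym x x₁ ((memA x).1 hx)]; exact hF1
  have hup : ∀ x ∈ A, ∀ i, x i = false → F (flip x i) = true := by
    intro x hx i hi
    have hc : count b x₁ (b i) < size b (b i) := by
      rw [← (memA x).1 hx (b i)]; exact count_lt hi
    obtain ⟨j, hj, hj2⟩ := exists_false hc
    have h2 : F (flip x₁ j) = true := by
      by_contra hne
      have hne' : F (flip x₁ j) = false := by simpa using hne
      have := hmax (flip x₁ j) (Finset.mem_filter.2 ⟨Finset.mem_univ _, hne', fun t => by
        rw [count_flip b x₁ t j hj2]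
        exact (hq t).trans (Nat.le_add_right _ _)⟩)
      rw [ones_flip x₁ j hj2] at this
      omega
    rw [← h2]
    apply hsym
    intro t
    rw [count_flip b x t i hi, count_flip b x₁ t j hj2, (memA x).1 hx t, hj]
  have hswap : ∀ x ∈ A, ∀ i j, x i = false → b j = b i → flip x i j = true →
      flip (flip x i) j ∈ A := by
    intro x hx i j hi hj hj2
    rw [memA]
    intro t
    set z := flip (flip x i) j with hz
    have hzj : z j = false := by
      rw [hz]; unfold flip; rw [Function.update_self]
      unfold flip at hj2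
      rw [hj2]; rfl
    have hzf : flip z j = flip x i := by rw [hz, flip_flip]
    have e1 := count_flip b z t j hzj
    have e2 := count_flip b x t i hi
    rw [hzf, e2, hj, (memA x).1 hx t] at e1
    omega
  set u : (Fin n → Bool) → ℝ := fun x => if x ∈ A then 1 else 0 with hu
  set v : (Fin n → Bool) → ℝ := fun y => ∑ i, if y i = true ∧ flip y i ∈ A then 1 else 0 with hv
  have hu0 : ∀ x, 0 ≤ u x := by intro x; simp only [hu]; split_ifs <;> norm_num
  have hv0 : ∀ x, 0 ≤ v x := by
    intro x; simp only [hv]
    exact Finset.sum_nonneg fun i _ => by split_ifs <;> norm_num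
  have huF : ∀ x, F x = true → u x = 0 := by
    intro x hx
    simp only [hu]
    rw [if_neg]
    intro hxA
    rw [hAF x hxA] at hx
    exact absurd hx (by simp)
  have hvF : ∀ x, F x = false → v x = 0 := by
    intro y hy
    simp only [hv]
    apply Finset.sum_eq_zero; intro i _
    rw [if_neg]
    rintro ⟨h2, h3⟩
    have h4 : flip y i i = false := by
      unfold flip; rw [Function.update_self, h2]; rfl
    have := hup (flip y i) h3 i h4
    rw [flip_flip, hy] at this
    exact absurd this (by simp)
  set S : ℝ := ∑ x, ∑ i, if x i = false ∧ x ∈ A then v (flip x i) else 0 with hS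
  -- the square norm of `v`
  have hvS : ∑ y, v y ^ 2 = S := by
    have h2 : ∀ y, v y ^ 2 = ∑ i, if y i = true ∧ flip y i ∈ A then v y else 0 := by
      intro y
      rw [sq]
      conv_lhs => rw [hv]
      simp only []
      rw [Finset.sum_mul]
      apply Finset.sum_congr rfl; intro i _
      split_ifs
      · rw [one_mul]
      · rw [zero_mul]
    simp_rw [h2]
    rw [hS, Finset.sum_comm]
    conv_rhs => rw [Finset.sum_comm]
    apply Finset.sum_congr rfl; intro i _
    rw [← sum_flip (fun y => if y i = true ∧ flip y i ∈ A then v y else 0) i]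
    apply Finset.sum_congr rfl; intro x _
    rw [flip_flip]
    have h3 : flip x i i = true ↔ x i = false := by
      unfold flip; rw [Function.update_self]; simp
    simp only [h3]
  have hcr := Pool.Agent.H60.Bern.crossing_le hd h1 h0 u v hu0 hv0 huF hvF
  have hSle : S ≤ ∑ x, ∑ i, u x * v (Function.update x i (!x i)) := by
    rw [hS]
    apply Finset.sum_le_sum; intro x _
    apply Finset.sum_le_sum; intro i _
    simp only [hu]
    by_cases hx : x ∈ A
    · rw [if_pos hx, one_mul]
      split_ifs
      · exact le_rfl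
      · exact hv0 _
    · rw [if_neg (fun h => hx h.2), if_neg hx, zero_mul]
  have huS : ∑ x, u x ^ 2 = A.card := by
    have : ∀ x, u x ^ 2 = if x ∈ A then 1 else 0 := by
      intro x; simp only [hu]; split_ifs <;> norm_num
    simp_rw [this]
    rw [Finset.sum_ite_mem, Finset.univ_inter, Finset.sum_const, nsmul_eq_mul, mul_one]
  rw [huS, hvS] at hcr
  have hS0 : 0 ≤ S := by rw [← hvS]; exact Finset.sum_nonneg fun y _ => sq_nonneg _
  have hA0 : (0 : ℝ) < A.card := by
    have : x₁ ∈ A := (memA x₁).2 fun t => rfl
    exact_mod_cast Finset.card_pos.2 ⟨x₁, this⟩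
  -- lower bound of `S`
  have hvl : ∀ x ∈ A, ∀ i, x i = false → (P : ℝ) / 4 ≤ v (flip x i) := by
    intro x hx i hi
    have h2 : (count b (flip x i) (b i) : ℝ) ≤ v (flip x i) := by
      rw [count_eq_sum]
      push_cast
      simp only [hv]
      apply Finset.sum_le_sum; intro j _
      by_cases hj : b j = b i ∧ flip x i j = true
      · rw [if_pos hj, if_pos ⟨hj.2, hswap x hx i j hi hj.1 hj.2⟩]
      · rw [if_neg hj]; split_ifs <;> norm_num
    have h3 : count b (flip x i) (b i) = count b x (b i) + 1 := by
      rw [count_flip b x (b i) i hi, if_pos rfl]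
    have h4 := hq (b i)
    rw [← (memA x).1 hx (b i)] at h4
    have h5 := hP i
    have h6 : P ≤ 4 * count b (flip x i) (b i) := by
      rw [h3]; omega
    have h7 : (P : ℝ) ≤ 4 * count b (flip x i) (b i) := by exact_mod_cast h6
    linarith
  have hnum : ∀ x ∈ A, (n : ℝ) / 4 ≤ ((univ.filter fun i => x i = false).card : ℝ) := by
    intro x hx
    have h2 : ¬ 3 * n ≤ 4 * ones x := by
      intro h
      have := hhi x h
      rw [hAF x hx] at this
      exact absurd this (by simp)
    have h3 : ones x + (univ.filter fun i => x i = false).card = n := by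
      unfold ones
      have h4 : (univ.filter fun i => x i = false) = univ.filter fun i => ¬ x i = true := by
        apply Finset.filter_congr; intro i _; simp
      rw [h4, Finset.card_filter_add_card_filter_not, Finset.card_univ, Fintype.card_fin]
    have h5 : n ≤ 4 * (univ.filter fun i => x i = false).card := by omega
    have h6 : (n : ℝ) ≤ 4 * (univ.filter fun i => x i = false).card := by exact_mod_cast h5
    linarith
  have hSl : (A.card : ℝ) * ((n : ℝ) / 4 * (P / 4)) ≤ S := by
    have h2 : ∀ x, (if x ∈ A then (n : ℝ) / 4 * (P / 4) else 0) ≤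
        ∑ i, if x i = false ∧ x ∈ A then v (flip x i) else 0 := by
      intro x
      by_cases hx : x ∈ A
      · rw [if_pos hx]
        calc (n : ℝ) / 4 * (P / 4)
            ≤ ((univ.filter fun i => x i = false).card : ℝ) * (P / 4) := by
              apply mul_le_mul_of_nonneg_right (hnum x hx); positivity
          _ = ∑ i, if x i = false then (P : ℝ) / 4 else 0 := by
              rw [← Finset.sum_filter, Finset.sum_const, nsmul_eq_mul]
          _ ≤ _ := by
              apply Finset.sum_le_sum; intro i _
              by_cases hi : x i = false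
              · rw [if_pos hi, if_pos ⟨hi, hx⟩]; exact hvl x hx i hi
              · rw [if_neg hi, if_neg (fun h => hi h.1)]
      · rw [if_neg hx]
        exact Finset.sum_nonneg fun i _ => by
          rw [if_neg (fun h => hx h.2)]
    calc (A.card : ℝ) * ((n : ℝ) / 4 * (P / 4))
        = ∑ x, if x ∈ A then (n : ℝ) / 4 * (P / 4) else 0 := by
          rw [Finset.sum_ite_mem, Finset.univ_inter, Finset.sum_const, nsmul_eq_mul]
      _ ≤ S := Finset.sum_le_sum fun x _ => h2 x
  -- conclusion
  have hfin : S ≤ 9 / 4 * (d : ℝ) ^ 2 * A.card := by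
    rcases hS0.eq_or_lt with h | h
    · rw [← h]; exact mul_nonneg (mul_nonneg (by norm_num) (sq_nonneg _)) hA0.le
    · have h2 : S ≤ 3 / 2 * d * (√(A.card : ℝ) * √S) := hSle.trans hcr
      have h3 : √S * √S = S := Real.mul_self_sqrt hS0
      have h4 : 0 < √S := Real.sqrt_pos.2 h
      have h5 : √S ≤ 3 / 2 * d * √(A.card : ℝ) := by
        by_contra hc
        push Not at hc
        have := mul_lt_mul_of_pos_right hc h4
        nlinarith
      have h6 : √(A.card : ℝ) * √(A.card : ℝ) = A.card := Real.mul_self_sqrt hA0.le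
      have h7 : √S * √S ≤ (3 / 2 * d * √(A.card : ℝ)) * (3 / 2 * d * √(A.card : ℝ)) :=
        mul_self_le_mul_self h4.le h5
      calc S = √S * √S := h3.symm
        _ ≤ _ := h7
        _ = 9 / 4 * (d : ℝ) ^ 2 * (√(A.card : ℝ) * √(A.card : ℝ)) := by ring
        _ = _ := by rw [h6]
  have h8 : (A.card : ℝ) * ((n : ℝ) / 4 * (P / 4)) ≤ 9 / 4 * (d : ℝ) ^ 2 * A.card :=
    hSl.trans hfin
  have h9 : (n : ℝ) / 4 * (P / 4) ≤ 9 / 4 * (d : ℝ) ^ 2 := by
    by_contra hc
    push Not at hc
    have := mul_lt_mul_of_pos_left hc hA0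
    linarith
  linarith

/-- If the sign of the admissible function `f` depends only on the numbers of ones in the blocks
(`b i` is the label of the block of `i`), and every block has at least `P` elements, then the
degree of `f` is at least `√(n P) / 6`. -/
theorem result (n P : ℕ) (b : Fin n → ℕ)
    (hP : ∀ i, P ≤ (univ.filter fun j => b j = b i).card)
    (f : (Fin n → Bool) → ℝ) (hf : Admissible f)
    (hsym : ∀ x y, (∀ t, count b x t = count b y t) → 0 < f x → 0 < f y) :
    √((n : ℝ) * P) / 6 ≤ degree f := by
  classical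
  set F : (Fin n → Bool) → Bool := fun x => decide (0 < f x) with hF
  have hFt : ∀ x, F x = true ↔ 0 < f x := fun x => decide_eq_true_iff
  have hFf : ∀ x, F x = false ↔ ¬ 0 < f x := fun x => decide_eq_false_iff_not
  have h := main (P := P) (b := b) (F := F) hP (degLE_degree f)
    (fun x hx => by
      have hx' := (hFt x).1 hx
      rcases hf.gap x with h | h
      · exfalso; linarith [h.2]
      · exact ⟨h.1, h.2⟩)
    (fun x hx => by
      have hx' := (hFf x).1 hx
      rcases hf.gap x with h | h
      · exact ⟨h.1, h.2⟩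
      · exfalso; linarith [h.1])
    (fun x y hxy => by
      rw [Bool.eq_iff_iff, hFt, hFt]
      exact ⟨hsym x y hxy, hsym y x fun t => (hxy t).symm⟩)
    (fun x hx => by
      rw [hFf]
      have h2 := hf.low x (by
        rw [sum_sgn]
        have : (4 * ones x : ℝ) ≤ n := by exact_mod_cast hx
        linarith)
      linarith [h2.2])
    (fun x hx => by
      rw [hFt]
      have h2 := hf.high x (by
        rw [sum_sgn]
        have : (3 * n : ℝ) ≤ 4 * ones x := by exact_mod_cast hx
        linarith)
      linarith [h2.1])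
  rw [div_le_iff₀ (by norm_num)]
  apply Real.sqrt_le_iff.2
  constructor
  · positivity
  · nlinarith

end Pool.Agent.Results.MP_1e0d25_lc.BlockSymmetric
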