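import Pool.Agent.H51.GD.Up
import Pool.Agent.H51.GD.Low
import Pool.Agent.H78.AM.Lower

/-!
# The least degree of an approximate majority

`D n` is `√n` up to a power of `log n`; with a gap `δ` in the place of `1 / 2` the least degree is
`√((1 - δ) n / δ)` up to a power of `log n`, for every `δ ∈ [1 / n, 1]`.

Upper bound: `Pool/Agent/H8/AP`, `Pool/Agent/H51/GD` (floor trees, general adversary costs, Cesaro
averages); lower bounds: `Pool/Agent/H78/AM` (block sensitivity) and `Pool/Agent/H51/GD/Low.lean`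
(spectral sensitivity).
-/

open Finset

namespace Pool.Agent.Results.MP_1e0d25_lc.DegreeLaw

/-- The point of `{-1, 1}` encoded by a bit: `true` is `1` and `false` is `-1`. -/
def sgn (b : Bool) : ℝ := if b then 1 else -1

/-- The Fourier coefficient of `f` at `S`. -/
noncomputable def coef {n : ℕ} (f : (Fin n → Bool) → ℝ) (S : Finset (Fin n)) : ℝ :=
  (∑ x : Fin n → Bool, f x * ∏ i ∈ S, sgn (x i)) / 2 ^ n

open Classical in
/-- The degree of `f`: the largest `|S|` with a nonzero Fourier coefficient. -/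
noncomputable def degree {n : ℕ} (f : (Fin n → Bool) → ℝ) : ℕ :=
  (Finset.univ.filter (fun S : Finset (Fin n) => coef f S ≠ 0)).sup Finset.card

/-- The admissible functions. -/
structure Admissible {n : ℕ} (f : (Fin n → Bool) → ℝ) : Prop where
  gap : ∀ x, f x ∈ Set.Icc (-1 : ℝ) (-(2 / 3)) ∪ Set.Icc (2 / 3 : ℝ) 1
  high : ∀ x, (n : ℝ) / 2 ≤ ∑ i, sgn (x i) → f x ∈ Set.Icc (2 / 3 : ℝ) 1
  low : ∀ x, ∑ i, sgn (x i) ≤ -((n : ℝ) / 2) → f x ∈ Set.Icc (-1 : ℝ) (-(2 / 3))

/-- The least degree of an admissible function on `{-1, 1} ^ n`. -/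
noncomputable def D (n : ℕ) : ℕ :=
  sInf {d : ℕ | ∃ f : (Fin n → Bool) → ℝ, Admissible f ∧ degree f = d}

/-- The functions that are admissible for the gap `δ`: `n / 2` is replaced by `δ n`. -/
structure AdmissibleGap {n : ℕ} (δ : ℝ) (f : (Fin n → Bool) → ℝ) : Prop where
  gap : ∀ x, f x ∈ Set.Icc (-1 : ℝ) (-(2 / 3)) ∪ Set.Icc (2 / 3 : ℝ) 1
  high : ∀ x, δ * n ≤ ∑ i, sgn (x i) → f x ∈ Set.Icc (2 / 3 : ℝ) 1
  low : ∀ x, ∑ i, sgn (x i) ≤ -(δ * n) → f x ∈ Set.Icc (-1 : ℝ) (-(2 / 3))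

/-- The least degree of a function on `{-1, 1} ^ n` that is admissible for the gap `δ`. -/
noncomputable def DGap (n : ℕ) (δ : ℝ) : ℕ :=
  sInf {d : ℕ | ∃ f : (Fin n → Bool) → ℝ, AdmissibleGap δ f ∧ degree f = d}

variable {n : ℕ}

lemma sum_chi (U : Finset (Fin n)) :
    ∑ x : Fin n → Bool, ∏ i ∈ U, sgn (x i) = if U = ∅ then 2 ^ n else 0 := by
  have h1 : ∀ x : Fin n → Bool, ∏ i ∈ U, sgn (x i) = ∏ i, (if i ∈ U then sgn (x i) else 1) := by
    intro x; rw [Finset.prod_ite_mem, Finset.univ_inter]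
  simp_rw [h1]
  have h := Finset.prod_univ_sum (fun _ : Fin n => (Finset.univ : Finset Bool))
    (fun i b => if i ∈ U then sgn b else (1:ℝ))
  rw [Fintype.piFinset_univ] at h
  rw [← h]
  have h2 : ∀ i : Fin n, ∑ b : Bool, (if i ∈ U then sgn b else (1:ℝ)) =
      if i ∈ U then 0 else 2 := by
    intro i
    rw [Fintype.sum_bool]
    split_ifs <;> norm_num [sgn]
  simp_rw [h2]
  split_ifs with hU
  · subst hU; simp
  · obtain ⟨i, hi⟩ := Finset.nonempty_iff_ne_empty.2 hU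
    exact Finset.prod_eq_zero (Finset.mem_univ i) (if_pos hi)

lemma sgn_eq (b : Bool) : sgn b = H87AM.sg b := rfl

lemma coef_add (f g : (Fin n → Bool) → ℝ) (S : Finset (Fin n)) :
    coef (f + g) S = coef f S + coef g S := by
  unfold coef
  rw [← add_div, ← Finset.sum_add_distrib]
  congr 1
  exact Finset.sum_congr rfl fun x _ => by rw [Pi.add_apply]; ring

lemma coef_smul (c : ℝ) (f : (Fin n → Bool) → ℝ) (S : Finset (Fin n)) :
    coef (c • f) S = c * coef f S := by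
  unfold coef
  rw [← mul_div_assoc, Finset.mul_sum]
  congr 1
  exact Finset.sum_congr rfl fun x _ => by simp only [Pi.smul_apply, smul_eq_mul]; ring

lemma coef_chi (S T : Finset (Fin n)) : coef (H87AM.chi T) S = if T = S then 1 else 0 := by
  unfold coef
  have h : ∀ x : Fin n → Bool, H87AM.chi T x * ∏ i ∈ S, sgn (x i) =
      ∏ i ∈ symmDiff T S, sgn (x i) := by
    intro x
    have := congrFun (H87AM.chi_mul T S) x
    exact this
  simp_rw [h]
  rw [sum_chi]
  by_cases hTS : T = S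
  · subst hTS; simp
  · have : symmDiff T S ≠ ∅ := by
      intro h; exact hTS (symmDiff_eq_bot.1 h)
    simp [this, hTS]

/-- Fourier inversion. -/
lemma inversion (f : (Fin n → Bool) → ℝ) (x : Fin n → Bool) :
    f x = ∑ S, coef f S * ∏ i ∈ S, sgn (x i) := by
  unfold coef
  have h1 : ∀ S : Finset (Fin n), (∑ y : Fin n → Bool, f y * ∏ i ∈ S, sgn (y i)) / 2 ^ n *
      ∏ i ∈ S, sgn (x i) = ∑ y : Fin n → Bool, f y / 2 ^ n * ∏ i ∈ S, (sgn (y i) * sgn (x i)) := by
    intro S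
    rw [Finset.sum_div, Finset.sum_mul]
    apply Finset.sum_congr rfl
    intro y _
    rw [Finset.prod_mul_distrib]; ring
  simp_rw [h1]
  rw [Finset.sum_comm]
  have h2 : ∀ y : Fin n → Bool, ∑ S : Finset (Fin n), f y / 2 ^ n * ∏ i ∈ S, (sgn (y i) * sgn (x i)) =
      if y = x then f x else 0 := by
    intro y
    rw [← Finset.mul_sum, ← Finset.powerset_univ, ← Finset.prod_one_add]
    by_cases hy : y = x
    · subst hy
      have : ∀ i, 1 + sgn (y i) * sgn (y i) = 2 := by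
        intro i; cases y i <;> norm_num [sgn]
      simp_rw [this]
      simp
    · rw [if_neg hy]
      obtain ⟨i, hi⟩ : ∃ i, y i ≠ x i := by
        by_contra hcon; push Not at hcon; exact hy (funext hcon)
      rw [Finset.prod_eq_zero (Finset.mem_univ i), mul_zero]
      cases h3 : y i <;> cases h4 : x i <;> simp_all [sgn]
  simp_rw [h2]
  simp

lemma degree_le_of_mem {d : ℕ} {f : (Fin n → Bool) → ℝ} (hf : f ∈ H87AM.Deg (Fin n) d) :
    degree f ≤ d := by
  classical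
  unfold degree
  apply Finset.sup_le
  intro S hS
  rw [Finset.mem_filter] at hS
  by_contra hlt
  push Not at hlt
  apply hS.2
  unfold H87AM.Deg at hf
  clear hS
  induction hf using Submodule.span_induction with
  | mem f hf =>
    obtain ⟨T, hT, rfl⟩ := hf
    simp only [Set.mem_ofPred_eq] at hT
    rw [coef_chi, if_neg]
    rintro rfl; omega
  | zero => simp [coef]
  | add f g _ _ hf hg => rw [coef_add, hf, hg, add_zero]
  | smul c f _ hf => rw [coef_smul, hf, mul_zero]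

lemma degLE_degree (f : (Fin n → Bool) → ℝ) : Pool.Agent.H78.AM.DegLE (degree f) f := by
  classical
  refine ⟨coef f, fun T hT => ?_, fun x => inversion f x⟩
  by_contra hne
  have : T.card ≤ degree f := by
    unfold degree
    exact Finset.le_sup (f := Finset.card) (Finset.mem_filter.2 ⟨Finset.mem_univ T, hne⟩)
  omega

lemma sum_sgn (x : Fin n → Bool) : ∑ i, sgn (x i) = 2 * (H8AP.wt x : ℝ) - n := by
  have h1 : ∀ i, sgn (x i) = 2 * (if x i = true then 1 else 0) - 1 := by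
    intro i; cases x i <;> norm_num [sgn]
  simp_rw [h1]
  rw [Finset.sum_sub_distrib, ← Finset.mul_sum]
  congr 1
  · unfold H8AP.wt
    rw [Finset.card_filter]; push_cast; rfl
  · simp

lemma exists_admissible {n : ℕ} {δ B : ℝ}
    (h : ∃ (d : ℕ) (f : (Fin n → Bool) → ℝ), (d:ℝ) ≤ B ∧
      f ∈ H87AM.Deg (Fin n) d ∧
      (∀ x, f x ∈ Set.Icc (-1:ℝ) (-(7/8)) ∪ Set.Icc (7/8) 1) ∧
      (∀ x, δ * n ≤ 2 * (H8AP.wt x : ℝ) - n → 7/8 ≤ f x) ∧
      (∀ x, 2 * (H8AP.wt x : ℝ) - n ≤ -(δ * n) → f x ≤ -(7/8))) :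
    ∃ f : (Fin n → Bool) → ℝ, AdmissibleGap δ f ∧ (degree f : ℝ) ≤ B := by
  obtain ⟨d, f, hd, hdeg, h1, h2, h3⟩ := h
  have hgap : ∀ x, f x ∈ Set.Icc (-1 : ℝ) (-(2 / 3)) ∪ Set.Icc (2 / 3 : ℝ) 1 := by
    intro x
    rcases h1 x with h | h
    · left; exact ⟨h.1, by linarith [h.2]⟩
    · right; exact ⟨by linarith [h.1], h.2⟩
  refine ⟨f, ⟨hgap, fun x hx => ?_, fun x hx => ?_⟩, ?_⟩
  · rw [sum_sgn] at hx
    have h5 := h2 x hx
    rcases hgap x with h | h
    · exfalso; linarith [h.2]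
    · exact h
  · rw [sum_sgn] at hx
    have h5 := h3 x hx
    rcases hgap x with h | h
    · exact h
    · exfalso; linarith [h.1]
  · exact le_trans (by exact_mod_cast degree_le_of_mem hdeg) hd

lemma law :
    ∃ (A : ℝ) (k : ℕ), ∀ n : ℕ, 2 ≤ n → ∀ δ : ℝ, 1 / (n : ℝ) ≤ δ → δ ≤ 1 →
      max 1 (√((1 - δ) * n / δ) / 6) ≤ (DGap n δ : ℝ) ∧
      (DGap n δ : ℝ) ≤ A * max 1 √((1 - δ) * n / δ) * (Real.log n) ^ k := by
  obtain ⟨C, k, hC0, hC⟩ := Pool.Agent.H51.GD.upper
  refine ⟨2 * C * 3 ^ k, k, fun n hn δ hδn hδ1 => ?_⟩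
  obtain ⟨f, hf, hd⟩ := exists_admissible (hC n hn δ hδn hδ1)
  constructor
  · have hne : {d : ℕ | ∃ f : (Fin n → Bool) → ℝ, AdmissibleGap δ f ∧ degree f = d}.Nonempty :=
      ⟨degree f, f, hf, rfl⟩
    obtain ⟨g, hg, hgd⟩ := Nat.sInf_mem hne
    have h1 := Pool.Agent.H51.GD.lower (by omega) hδn hδ1 (degLE_degree g) hg.gap
      (fun x hx => by
        have := (hg.low x (by rw [sum_sgn]; exact hx)).2
        linarith)
      (fun x hx => by
        have := (hg.high x (by rw [sum_sgn]; exact hx)).1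
        linarith)
    have hD : degree g = DGap n δ := hgd
    rw [hD] at h1
    refine max_le (by exact_mod_cast h1.1) ?_
    rw [div_le_iff₀ (by norm_num)]
    apply Real.sqrt_le_iff.2
    constructor
    · positivity
    · nlinarith [sq_nonneg (DGap n δ : ℝ), h1.2]
  · have h1 : DGap n δ ≤ degree f := Nat.sInf_le ⟨f, hf, rfl⟩
    have hn2 : (2:ℝ) ≤ n := by exact_mod_cast hn
    have hlog : Real.log 2 ≤ Real.log n := Real.log_le_log (by norm_num) hn2
    have hl2 : (0.69:ℝ) < Real.log 2 := by have := Real.log_two_gt_d9; linarith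
    have h3 : 1 + Real.log n ≤ 3 * Real.log n := by linarith
    have h4 : (1 + Real.log n) ^ k ≤ 3 ^ k * (Real.log n) ^ k := by
      rw [← mul_pow]
      exact pow_le_pow_left₀ (by linarith) h3 k
    have h5 : 1 + √((1 - δ) * n / δ) ≤ 2 * max 1 √((1 - δ) * n / δ) := by
      have h6 := le_max_left 1 √((1 - δ) * n / δ)
      have h7 := le_max_right 1 √((1 - δ) * n / δ)
      linarith
    have h8 : (0 : ℝ) ≤ max 1 √((1 - δ) * n / δ) := le_trans (by norm_num) (le_max_left _ _)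
    calc (DGap n δ : ℝ) ≤ degree f := by exact_mod_cast h1
      _ ≤ C * (1 + √((1 - δ) * n / δ)) * (1 + Real.log n) ^ k := hd
      _ ≤ C * (2 * max 1 √((1 - δ) * n / δ)) * (3 ^ k * (Real.log n) ^ k) :=
          mul_le_mul (mul_le_mul_of_nonneg_left h5 hC0) h4 (by positivity) (by positivity)
      _ = _ := by ring

lemma admissible_iff (f : (Fin n → Bool) → ℝ) : Admissible f ↔ AdmissibleGap (1 / 2) f := by
  have h : (1 / 2 : ℝ) * n = (n : ℝ) / 2 := by ring
  constructor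
  · intro hf
    exact ⟨hf.gap, fun x hx => hf.high x (by rwa [h] at hx),
      fun x hx => hf.low x (by rwa [h] at hx)⟩
  · intro hf
    exact ⟨hf.gap, fun x hx => hf.high x (by rwa [h]), fun x hx => hf.low x (by rwa [h])⟩

lemma D_eq (n : ℕ) : D n = DGap n (1 / 2) := by
  unfold D DGap
  simp_rw [admissible_iff]

lemma admissible_toH78 {f : (Fin n → Bool) → ℝ} (h : Admissible f) :
    Pool.Agent.H78.AM.Admissible f where
  gap := fun x => by
    rcases h.gap x with h1 | h1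
    · rw [abs_of_nonpos (by linarith [h1.2])]
      exact ⟨by linarith [h1.2], by linarith [h1.1]⟩
    · rw [abs_of_nonneg (by linarith [h1.1])]
      exact ⟨h1.1, h1.2⟩
  high := fun x hx => (h.high x hx).1
  low := fun x hx => (h.low x hx).2

lemma D_lower (hn : 1 ≤ n) (hD : 1 ≤ D n) : √n / 5 ≤ (D n : ℝ) := by
  have hne : {d : ℕ | ∃ f : (Fin n → Bool) → ℝ, Admissible f ∧ degree f = d}.Nonempty := by
    by_contra h
    rw [Set.not_nonempty_iff_eq_empty] at h
    unfold D at hD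
    rw [h, Nat.sInf_empty] at hD
    omega
  obtain ⟨g, hg, hgd⟩ := Nat.sInf_mem hne
  have h1 := Pool.Agent.H78.AM.lower (by omega) (admissible_toH78 hg) (degLE_degree g)
  have hD : degree g = D n := hgd
  rw [hD] at h1
  have h2 : (n:ℝ) ≤ 23 * (D n : ℝ) ^ 2 := by exact_mod_cast h1
  rw [div_le_iff₀ (by norm_num)]
  apply Real.sqrt_le_iff.2
  constructor
  · positivity
  · nlinarith [sq_nonneg (D n : ℝ)]

/-- There are `A` and `k` such that `√n / 5 ≤ D n ≤ A √n (log n) ^ k` for every `n ≥ 2`, and, with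
`s = √((1 - δ) n / δ)`, `max 1 (s / 6) ≤ DGap n δ ≤ A (max 1 s) (log n) ^ k` for every `n ≥ 2` and
every `δ ∈ [1 / n, 1]`. -/
theorem result :
    ∃ (A : ℝ) (k : ℕ),
      (∀ n : ℕ, 2 ≤ n → √n / 5 ≤ (D n : ℝ) ∧ (D n : ℝ) ≤ A * √n * (Real.log n) ^ k) ∧
      (∀ n : ℕ, 2 ≤ n → ∀ δ : ℝ, 1 / (n : ℝ) ≤ δ → δ ≤ 1 →
        max 1 (√((1 - δ) * n / δ) / 6) ≤ (DGap n δ : ℝ) ∧
        (DGap n δ : ℝ) ≤ A * max 1 √((1 - δ) * n / δ) * (Real.log n) ^ k) := by
  obtain ⟨A, k, h⟩ := law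
  refine ⟨A, k, fun n hn => ?_, h⟩
  have hn2 : (2 : ℝ) ≤ n := by exact_mod_cast hn
  have h1 := h n hn (1 / 2) (one_div_le_one_div_of_le (by norm_num) hn2) (by norm_num)
  have h2 : (1 - 1 / 2 : ℝ) * n / (1 / 2) = n := by ring
  rw [h2, ← D_eq] at h1
  have h3 : max 1 √(n : ℝ) = √n := max_eq_right (Real.one_le_sqrt.2 (by linarith))
  rw [h3] at h1
  refine ⟨D_lower (by omega) ?_, h1.2⟩
  have := (le_max_left _ _).trans h1.1
  exact_mod_cast this

end Pool.Agent.Results.MP_1e0d25_lc.DegreeLaw
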