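import Pool.Agent.H82.GapDeg.Two
import Pool.Agent.H60.BernForm

/-!
# A lower bound for the degree of functions approximating a threshold gap

Every total function on `n` bits that is `false` below layer `s₀` and `true` from layer `s₁` on
has spectral sensitivity `λ` with `λ ^ 2 (s₁ - s₀ + 1) ≥ s₀ (n + 1 - s₀)`, a bound stronger by a
factor `2` for wide gaps, and its approximations have degree at least `(2 / 3) λ`.
-/

open Finset

namespace Pool.Agent.Results.MP_1e0d25_lc.GapLowerBound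

/-- The point of `{-1, 1}` encoded by a bit: `true` is `1` and `false` is `-1`. -/
def sgn (b : Bool) : ℝ := if b then 1 else -1

/-- The Fourier coefficient of `f` at `S`. -/
noncomputable def coef {n : ℕ} (f : (Fin n → Bool) → ℝ) (S : Finset (Fin n)) : ℝ :=
  (∑ x : Fin n → Bool, f x * ∏ i ∈ S, sgn (x i)) / 2 ^ n

open Classical in
/-- The degree of `f`: the largest `|S|` with a nonzero Fourier coefficient. -/
noncomputable def degree {n : ℕ} (f : (Fin n → Bool) → ℝ) : ℕ :=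
  (Finset.univ.filter (fun S : Finset (Fin n) => coef f S ≠ 0)).sup Finset.card

/-- The admissible functions. -/
structure Admissible {n : ℕ} (f : (Fin n → Bool) → ℝ) : Prop where
  gap : ∀ x, f x ∈ Set.Icc (-1 : ℝ) (-(2 / 3)) ∪ Set.Icc (2 / 3 : ℝ) 1
  high : ∀ x, (n : ℝ) / 2 ≤ ∑ i, sgn (x i) → f x ∈ Set.Icc (2 / 3 : ℝ) 1
  low : ∀ x, ∑ i, sgn (x i) ≤ -((n : ℝ) / 2) → f x ∈ Set.Icc (-1 : ℝ) (-(2 / 3))

/-- The least degree of an admissible function on `{-1, 1} ^ n`. -/
noncomputable def D (n : ℕ) : ℕ :=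
  sInf {d : ℕ | ∃ f : (Fin n → Bool) → ℝ, Admissible f ∧ degree f = d}

variable {n : ℕ}

/-- The number of ones of `x`. -/
def ones (x : Fin n → Bool) : ℕ := (univ.filter fun i => x i = true).card

/-- The point `x` with the bit `i` flipped. -/
def flip (x : Fin n → Bool) (i : Fin n) : Fin n → Bool := Function.update x i (!x i)

open Classical in
/-- The quadratic form of the adjacency matrix of the sensitivity graph of `F`: the points of the
cube, joined when they differ in one bit and `F` takes different values at them. -/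
noncomputable def form (F : (Fin n → Bool) → Bool) (v : (Fin n → Bool) → ℝ) : ℝ :=
  ∑ x, ∑ i, if F (flip x i) ≠ F x then v x * v (flip x i) else 0

/-- Fourier inversion. -/
lemma inversion (f : (Fin n → Bool) → ℝ) (x : Fin n → Bool) :
    f x = ∑ S, coef f S * ∏ i ∈ S, sgn (x i) := by
  unfold coef
  have h1 : ∀ S : Finset (Fin n), (∑ y : Fin n → Bool, f y * ∏ i ∈ S, sgn (y i)) / 2 ^ n *
      ∏ i ∈ S, sgn (x i) = ∑ y : Fin n → Bool, f y / 2 ^ n * ∏ i ∈ S, (sgn (y i) * sgn (x i)) := by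
    intro S
    rw [Finset.sum_div, Finset.sum_mul]
    apply Finset.sum_congr rfl
    intro y _
    rw [Finset.prod_mul_distrib]; ring
  simp_rw [h1]
  rw [Finset.sum_comm]
  have h2 : ∀ y : Fin n → Bool, ∑ S : Finset (Fin n), f y / 2 ^ n * ∏ i ∈ S, (sgn (y i) * sgn (x i)) =
      if y = x then f x else 0 := by
    intro y
    rw [← Finset.mul_sum, ← Finset.powerset_univ, ← Finset.prod_one_add]
    by_cases hy : y = x
    · subst hy
      have : ∀ i, 1 + sgn (y i) * sgn (y i) = 2 := by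
        intro i; cases y i <;> norm_num [sgn]
      simp_rw [this]
      simp
    · rw [if_neg hy]
      obtain ⟨i, hi⟩ : ∃ i, y i ≠ x i := by
        by_contra hcon; push Not at hcon; exact hy (funext hcon)
      rw [Finset.prod_eq_zero (Finset.mem_univ i), mul_zero]
      cases h3 : y i <;> cases h4 : x i <;> simp_all [sgn]
  simp_rw [h2]
  simp

lemma degLE_degree (f : (Fin n → Bool) → ℝ) : Pool.Agent.H78.AM.DegLE (degree f) f := by
  classical
  refine ⟨coef f, fun T hT => ?_, fun x => inversion f x⟩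
  by_contra hne
  have : T.card ≤ degree f := by
    unfold degree
    exact Finset.le_sup (f := Finset.card) (Finset.mem_filter.2 ⟨Finset.mem_univ T, hne⟩)
  omega

lemma flip_flip (x : Fin n → Bool) (i : Fin n) : flip (flip x i) i = x := by
  funext j
  unfold flip
  by_cases h : j = i
  · subst h; simp
  · rw [Function.update_of_ne h, Function.update_of_ne h]

lemma sum_flip (f : (Fin n → Bool) → ℝ) (i : Fin n) : ∑ x, f (flip x i) = ∑ x, f x :=
  Equiv.sum_comp (Function.Involutive.toPerm (fun x => flip x i) (fun x => flip_flip x i)) f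

/-- A bound `m` of the form gives the bound `m ^ 2` for the squared norm of the bipartite
adjacency matrix. -/
lemma bilin {F : (Fin n → Bool) → Bool} {m : ℝ}
    (hm : ∀ v : (Fin n → Bool) → ℝ, form F v ≤ m * ∑ x, v x ^ 2) (u v : (Fin n → Bool) → ℝ)
    (_ : ∀ x, 0 ≤ u x) (_ : ∀ x, 0 ≤ v x)
    (hu : ∀ x, ¬ F x = true → u x = 0) (hv : ∀ x, F x = true → v x = 0) :
    (∑ x, ∑ i, u x * v (Pool.H25.GapDeg.fl i x)) ^ 2 ≤
      m ^ 2 * (∑ x, u x ^ 2) * (∑ x, v x ^ 2) := by
  classical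
  have hfl : ∀ (x : Fin n → Bool) (i : Fin n), Pool.H25.GapDeg.fl i x = flip x i := fun x i => rfl
  simp_rw [hfl]
  set X : ℝ := ∑ x, ∑ i, u x * v (flip x i) with hX
  have hX2 : ∑ x, ∑ i, v x * u (flip x i) = X := by
    rw [hX, Finset.sum_comm]
    conv_rhs => rw [Finset.sum_comm]
    apply Finset.sum_congr rfl; intro i _
    rw [← sum_flip (fun x => v x * u (flip x i)) i]
    apply Finset.sum_congr rfl; intro x _
    rw [flip_flip]; ring
  have huv : ∀ x, u x * v x = 0 := by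
    intro x
    by_cases h : F x = true
    · rw [hv x h, mul_zero]
    · rw [hu x h, zero_mul]
  have hform : ∀ t : ℝ, form F (fun x => t * u x + v x) = 2 * t * X := by
    intro t
    have h1 : form F (fun x => t * u x + v x) =
        ∑ x, ∑ i, (t * (u x * v (flip x i)) + t * (v x * u (flip x i))) := by
      unfold form
      apply Finset.sum_congr rfl; intro x _
      apply Finset.sum_congr rfl; intro i _
      show (if F (flip x i) ≠ F x then (t * u x + v x) * (t * u (flip x i) + v (flip x i))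
        else 0) = _
      by_cases hx : F x = true
      · rw [hv x hx]
        by_cases hy : F (flip x i) = true
        · rw [if_neg (by rw [hx, hy]; simp), hv _ hy]; ring
        · rw [if_pos (by rw [hx]; exact hy), hu _ hy]; ring
      · rw [hu x hx]
        have hx' : F x = false := by simpa using hx
        by_cases hy : F (flip x i) = true
        · rw [if_pos (by rw [hx', hy]; simp), hv _ hy]; ring
        · have hy' : F (flip x i) = false := by simpa using hy
          rw [if_neg (by rw [hx', hy']; simp), hu _ hy]; ring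
    have h2 : ∑ x, ∑ i, (t * (u x * v (flip x i)) + t * (v x * u (flip x i))) =
        t * (∑ x, ∑ i, u x * v (flip x i)) + t * ∑ x, ∑ i, v x * u (flip x i) := by
      rw [Finset.mul_sum, Finset.mul_sum, ← Finset.sum_add_distrib]
      apply Finset.sum_congr rfl; intro x _
      rw [Finset.mul_sum, Finset.mul_sum, ← Finset.sum_add_distrib]
    rw [h1, h2, hX2, ← hX]; ring
  have hsq : ∀ t : ℝ, ∑ x, (t * u x + v x) ^ 2 = t ^ 2 * (∑ x, u x ^ 2) + ∑ x, v x ^ 2 := by
    intro t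
    rw [Finset.mul_sum, ← Finset.sum_add_distrib]
    apply Finset.sum_congr rfl; intro x _
    have := huv x
    linear_combination 2 * t * this
  have hd := discrim_le_zero (a := m * ∑ x, u x ^ 2) (b := -(2 * X)) (c := m * ∑ x, v x ^ 2)
    (fun t => by
      have h := hm (fun x => t * u x + v x)
      rw [hform, hsq] at h
      linarith)
  unfold discrim at hd
  linarith

/-- The layer inequality, for any bound `m` of the form. -/
theorem layer {s₀ s₁ : ℕ} (hs : 1 ≤ s₀) (h01 : s₀ ≤ s₁) (h1n : s₁ ≤ n)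
    {F : (Fin n → Bool) → Bool} (hlo : ∀ x, ones x < s₀ → F x = false)
    (hhi : ∀ x, s₁ ≤ ones x → F x = true) {m : ℝ}
    (hm : ∀ v : (Fin n → Bool) → ℝ, form F v ≤ m * ∑ x, v x ^ 2) :
    (s₀ : ℝ) * (n + 1 - s₀) ≤ m ^ 2 * (s₁ - s₀ + 1) :=
  Pool.H25.GapDeg.thick (F := fun x => F x = true) (m ^ 2) (sq_nonneg m) (bilin hm) s₀ hs h01 h1n
    (fun x hx => by rw [hlo x hx]; simp) (fun x hx => hhi x hx)

/-- The two-sided inequality, for any bound `m ≥ 0` of the form. -/
theorem layer₂ {s₀ s₁ : ℕ} (hs : 1 ≤ s₀) (h01 : s₀ ≤ s₁) (h1n : s₁ ≤ n)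
    {F : (Fin n → Bool) → Bool} (hlo : ∀ x, ones x < s₀ → F x = false)
    (hhi : ∀ x, s₁ ≤ ones x → F x = true) {m : ℝ} (hm0 : 0 ≤ m)
    (hm : ∀ v : (Fin n → Bool) → ℝ, form F v ≤ m * ∑ x, v x ^ 2) :
    2 * min ((s₀ : ℝ) * (n + 1 - s₀)) (s₁ * (n + 1 - s₁)) ≤
      m ^ 2 * (s₁ - s₀ + 2) + 2 * m * (n + 1) := by
  have hs0 : (s₀ : ℝ) ≤ s₁ := by exact_mod_cast h01
  have hs1 : (s₁ : ℝ) ≤ n := by exact_mod_cast h1n
  set M : ℝ := min ((s₀ : ℝ) * (n + 1 - s₀)) (s₁ * (n + 1 - s₁)) with hM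
  have hM0 : M ≤ (s₀ : ℝ) * (n + 1 - s₀) := min_le_left _ _
  have hM1 : M ≤ (s₁ : ℝ) * (n + 1 - s₁) := min_le_right _ _
  have hn0 : (0 : ℝ) ≤ n := Nat.cast_nonneg n
  rcases h01.eq_or_lt with h | h
  · have h2 := layer hs h01 h1n hlo hhi hm
    subst h
    have h3 : (0 : ℝ) ≤ 2 * m * (n + 1) := by positivity
    nlinarith [sq_nonneg m]
  · set k : ℕ := (s₁ - s₀ + 1) / 2 with hk
    have hk1 : 1 ≤ k := by omega
    have hk2 : 2 * k ≤ s₁ - s₀ + 1 := by omega
    have hk3 : s₁ - s₀ ≤ 2 * k := by omega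
    obtain ⟨l, hl⟩ : ∃ l, l + 1 = s₀ + k := ⟨s₀ + k - 1, by omega⟩
    have hal : s₀ ≤ l := by omega
    have hlb : l < s₁ := by omega
    have h2 := Pool.H82.GapDeg.two (F := fun x => F x = true) (m ^ 2) (sq_nonneg m) (bilin hm)
      s₀ l s₁ hal hlb h1n (fun x hx => by rw [hlo x hx]; simp) (fun x hx => hhi x hx)
    have hlr : (l : ℝ) + 1 = s₀ + k := by exact_mod_cast hl
    have hk2' : (2 : ℝ) * k ≤ s₁ - s₀ + 1 := by
      have : 2 * k + s₀ ≤ s₁ + 1 := by omega
      have : ((2 * k + s₀ : ℕ) : ℝ) ≤ ((s₁ + 1 : ℕ) : ℝ) := by exact_mod_cast this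
      push_cast at this; linarith
    have hk3' : (s₁ : ℝ) - s₀ ≤ 2 * k := by
      have : s₁ ≤ s₀ + 2 * k := by omega
      have : ((s₁ : ℕ) : ℝ) ≤ ((s₀ + 2 * k : ℕ) : ℝ) := by exact_mod_cast this
      push_cast at this; linarith
    set c : ℝ := M - (s₁ - s₀ + 2) / 2 * m ^ 2 with hc
    have hm2 := sq_nonneg m
    have hca : c ≤ (s₀ : ℝ) * (n + 1 - s₀) - ((l : ℝ) - s₀ + 1) * m ^ 2 := by
      have : (l : ℝ) - s₀ + 1 ≤ (s₁ - s₀ + 2) / 2 := by linarith
      nlinarith
    have hcb : c ≤ (s₁ : ℝ) * (n + 1 - s₁) - ((s₁ : ℝ) - l) * m ^ 2 := by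
      have : (s₁ : ℝ) - l ≤ (s₁ - s₀ + 2) / 2 := by linarith
      nlinarith
    have hgoal : c ≤ m * (n + 1) := by
      rcases le_or_gt c 0 with h3 | h3
      · exact h3.trans (by positivity)
      · have h4 : c * c ≤ 4 * m ^ 2 * ((l : ℝ) * ((n : ℝ) + 1 - l)) :=
          (mul_le_mul (hca.trans (le_max_right _ _)) (hcb.trans (le_max_right _ _)) h3.le
            (le_max_left _ _)).trans h2
        have h5 : 4 * ((l : ℝ) * ((n : ℝ) + 1 - l)) ≤ (n + 1) ^ 2 := by
          nlinarith [sq_nonneg ((n : ℝ) + 1 - 2 * l)]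
        have h6 : c ^ 2 ≤ (m * (n + 1)) ^ 2 := by
          calc c ^ 2 = c * c := sq c
            _ ≤ _ := h4
            _ = m ^ 2 * (4 * ((l : ℝ) * ((n : ℝ) + 1 - l))) := by ring
            _ ≤ m ^ 2 * (n + 1) ^ 2 := mul_le_mul_of_nonneg_left h5 hm2
            _ = _ := by ring
        exact (le_abs_self _).trans (abs_le_of_sq_le_sq h6 (by positivity))
    rw [hc] at hgoal
    linarith

/-- The degree inequalities. -/
theorem deg {s₀ s₁ : ℕ} (hs : 1 ≤ s₀) (h01 : s₀ ≤ s₁) (h1n : s₁ ≤ n)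
    {f : (Fin n → Bool) → ℝ}
    (hgap : ∀ x, f x ∈ Set.Icc (-1 : ℝ) (-(2 / 3)) ∪ Set.Icc (2 / 3 : ℝ) 1)
    (hlo : ∀ x, ones x < s₀ → f x < 0) (hhi : ∀ x, s₁ ≤ ones x → 0 < f x) :
    4 * ((s₀ : ℝ) * (n + 1 - s₀)) ≤ 9 * (degree f : ℝ) ^ 2 * (s₁ - s₀ + 1) ∧
    8 * min ((s₀ : ℝ) * (n + 1 - s₀)) (s₁ * (n + 1 - s₁)) ≤
      9 * (degree f : ℝ) ^ 2 * (s₁ - s₀ + 2) + 12 * degree f * (n + 1) := by
  classical
  set F : (Fin n → Bool) → Bool := fun x => decide (0 < f x) with hF
  have h1 : ∀ x, F x = true → 2 / 3 ≤ f x ∧ f x ≤ 1 := by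
    intro x hx
    have hx' : 0 < f x := by simpa [hF] using hx
    rcases hgap x with h | h
    · exfalso; linarith [h.2]
    · exact ⟨h.1, h.2⟩
  have h0 : ∀ x, F x = false → -1 ≤ f x ∧ f x ≤ -(2 / 3) := by
    intro x hx
    have hx' : ¬ 0 < f x := by simpa [hF] using hx
    rcases hgap x with h | h
    · exact ⟨h.1, h.2⟩
    · exfalso; linarith [h.1]
  have hl : ∀ x, ones x < s₀ → F x = false := fun x hx => by
    have := hlo x hx
    simp only [hF, decide_eq_false_iff_not, not_lt]; exact this.le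
  have hh : ∀ x, s₁ ≤ ones x → F x = true := fun x hx => by
    have := hhi x hx
    simp only [hF, decide_eq_true_eq]; exact this
  have hm : ∀ v : (Fin n → Bool) → ℝ, form F v ≤ 3 / 2 * (degree f : ℝ) * ∑ x, v x ^ 2 :=
    fun v => Pool.Agent.H60.Bern.form_le (degLE_degree f) h1 h0 v
  have h2 := layer hs h01 h1n hl hh hm
  have h3 := layer₂ hs h01 h1n hl hh (by positivity) hm
  constructor
  · linarith
  · linarith

lemma sum_sgn (x : Fin n → Bool) : ∑ i, sgn (x i) = 2 * (ones x : ℝ) - n := by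
  have h1 : ∀ i, sgn (x i) = 2 * (if x i = true then 1 else 0) - 1 := by
    intro i; cases x i <;> norm_num [sgn]
  simp_rw [h1]
  rw [Finset.sum_sub_distrib, ← Finset.mul_sum]
  congr 1
  · unfold ones
    rw [Finset.card_filter]; push_cast; rfl
  · simp

/-- An admissible function has degree at least `√(n / 3) - 4 / 3`. -/
theorem adm (hn : 1 ≤ n) {f : (Fin n → Bool) → ℝ} (hf : Admissible f) :
    (n : ℝ) ≤ 3 * (degree f : ℝ) ^ 2 + 8 * degree f + 16 / 3 := by
  obtain ⟨q, r, hr, hqr⟩ : ∃ q r : ℕ, r < 4 ∧ n = 4 * q + r :=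
    ⟨n / 4, n % 4, Nat.mod_lt _ (by norm_num), (Nat.div_add_mod n 4).symm⟩
  have hlo : ∀ x, ones x < q + 1 → f x < 0 := by
    intro x hx
    have h := hf.low x (by
      rw [sum_sgn]
      have h1 : (ones x : ℝ) ≤ q := by exact_mod_cast (by omega : ones x ≤ q)
      have h2 : (n : ℝ) = 4 * q + r := by exact_mod_cast hqr
      have h3 : (0 : ℝ) ≤ r := Nat.cast_nonneg r
      linarith)
    linarith [h.2]
  have hhi : ∀ x, 3 * q + r ≤ ones x → 0 < f x := by
    intro x hx
    have h := hf.high x (by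
      rw [sum_sgn]
      have h1 : (3 * q + r : ℝ) ≤ ones x := by exact_mod_cast hx
      have h2 : (n : ℝ) = 4 * q + r := by exact_mod_cast hqr
      have h3 : (0 : ℝ) ≤ r := Nat.cast_nonneg r
      linarith)
    linarith [h.1]
  have hn' : (n : ℝ) = 4 * q + r := by exact_mod_cast hqr
  have hq : (0 : ℝ) ≤ q := Nat.cast_nonneg q
  have hr0 : (0 : ℝ) ≤ r := Nat.cast_nonneg r
  have hr3 : (r : ℝ) ≤ 3 := by exact_mod_cast (by omega : r ≤ 3)
  have h := (deg (s₀ := q + 1) (s₁ := 3 * q + r) (by omega) (by omega) (by omega) hf.gap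
    hlo hhi).2
  rw [hn'] at h ⊢
  push_cast at h
  have e1 : (3 * (q : ℝ) + r) * (4 * q + r + 1 - (3 * q + r)) =
      (q + 1) * (4 * q + r + 1 - (q + 1)) := by ring
  rw [e1, min_self] at h
  set d : ℝ := (degree f : ℝ) with hd
  have hd0 : 0 ≤ d := Nat.cast_nonneg _
  by_contra hc
  push Not at hc
  have h7 : (2 * q + r + 1 : ℝ) * (3 * d ^ 2 + 8 * d + 16 / 3) ≤ (2 * q + r + 1) * (4 * q + r) :=
    mul_le_mul_of_nonneg_left hc.le (by linarith)
  nlinarith [mul_nonneg hd0 hr0, mul_nonneg hq (sub_nonneg.2 hr3),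
    mul_nonneg hr0 (sub_nonneg.2 hr3)]

/-- Two lower bounds for the degree of a function that approximates a total Boolean function which
is `false` below layer `s₀` and `true` from layer `s₁` on; and the lower bound `√(n / 3) - 4 / 3` for
`D n`. -/
theorem result :
    (∀ n s₀ s₁ : ℕ, 1 ≤ s₀ → s₀ ≤ s₁ → s₁ ≤ n → ∀ f : (Fin n → Bool) → ℝ,
      (∀ x, f x ∈ Set.Icc (-1 : ℝ) (-(2 / 3)) ∪ Set.Icc (2 / 3 : ℝ) 1) →
      (∀ x, ones x < s₀ → f x < 0) → (∀ x, s₁ ≤ ones x → 0 < f x) →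
      4 * ((s₀ : ℝ) * (n + 1 - s₀)) ≤ 9 * (degree f : ℝ) ^ 2 * (s₁ - s₀ + 1) ∧
      8 * min ((s₀ : ℝ) * (n + 1 - s₀)) (s₁ * (n + 1 - s₁)) ≤
        9 * (degree f : ℝ) ^ 2 * (s₁ - s₀ + 2) + 12 * degree f * (n + 1)) ∧
    ∀ n : ℕ, √((n : ℝ) / 3) - 4 / 3 ≤ D n := by
  refine ⟨fun n s₀ s₁ h1 h2 h3 f h4 h5 h6 => deg h1 h2 h3 h4 h5 h6, fun n => ?_⟩
  rcases Nat.eq_zero_or_pos n with hn | hn
  · subst hn
    have h0 : (0 : ℝ) ≤ D 0 := Nat.cast_nonneg _
    norm_num
    linarith
  have hne : {d : ℕ | ∃ f : (Fin n → Bool) → ℝ, Admissible f ∧ degree f = d}.Nonempty := by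
    classical
    refine ⟨_, fun x => if n < 2 * ones x then 1 else -1, ⟨fun x => ?_, fun x hx => ?_,
      fun x hx => ?_⟩, rfl⟩
    · split_ifs
      · right; norm_num
      · left; norm_num
    · rw [sum_sgn] at hx
      have hn' : (1 : ℝ) ≤ n := by exact_mod_cast hn
      rw [if_pos (by
        have : (n : ℝ) < 2 * ones x := by linarith
        exact_mod_cast this)]
      norm_num
    · rw [sum_sgn] at hx
      have hn' : (1 : ℝ) ≤ n := by exact_mod_cast hn
      rw [if_neg (by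
        have : 2 * (ones x : ℝ) < n := by linarith
        have h2 : 2 * ones x < n := by exact_mod_cast this
        omega)]
      norm_num
  obtain ⟨g, hg, hgd⟩ := Nat.sInf_mem hne
  have h1 := adm hn hg
  have hD : degree g = D n := hgd
  rw [hD] at h1
  have hD0 : (0 : ℝ) ≤ D n := Nat.cast_nonneg _
  rw [sub_le_iff_le_add]
  apply Real.sqrt_le_iff.2
  constructor
  · positivity
  · nlinarith

end Pool.Agent.Results.MP_1e0d25_lc.GapLowerBound
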