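import Pool.Agent.H54.SS.Ext

/-!
# Spectral sensitivity of total extensions of the gap majority function

Among the total Boolean functions on `n` bits that extend the gap majority function, the least
spectral sensitivity has order exactly `√n`.
-/

open Finset

namespace Pool.Agent.Results.MP_1e0d25_lc.SpectralSensitivity

variable {n : ℕ}

/-- The number of ones of `x`. -/
def ones (x : Fin n → Bool) : ℕ := (univ.filter fun i => x i = true).card

/-- The point `x` with the bit `i` flipped. -/
def flip (x : Fin n → Bool) (i : Fin n) : Fin n → Bool := Function.update x i (!x i)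

/-- `F` is a total extension of the gap majority function: it is `true` on the points with at
least `3n/4` ones and `false` on the points with at most `n/4` ones. -/
structure Extends (F : (Fin n → Bool) → Bool) : Prop where
  high : ∀ x, 3 * n ≤ 4 * ones x → F x = true
  low : ∀ x, 4 * ones x ≤ n → F x = false

open Classical in
/-- The quadratic form of the adjacency matrix of the sensitivity graph of `F`: the points of the
cube, joined when they differ in one bit and `F` takes different values at them. -/
noncomputable def form (F : (Fin n → Bool) → Bool) (v : (Fin n → Bool) → ℝ) : ℝ :=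
  ∑ x, ∑ i, if F (flip x i) ≠ F x then v x * v (flip x i) else 0

/-- The spectral sensitivity of `F`: the largest eigenvalue of the adjacency matrix of the
sensitivity graph, as the supremum of its quadratic form over unit vectors. -/
noncomputable def specSens (F : (Fin n → Bool) → Bool) : ℝ :=
  sSup {r : ℝ | ∃ v : (Fin n → Bool) → ℝ, ∑ x, v x ^ 2 = 1 ∧ r = form F v}

lemma flip_flip (x : Fin n → Bool) (i : Fin n) : flip (flip x i) i = x := by
  funext j
  unfold flip
  by_cases h : j = i
  · subst h; simp
  · rw [Function.update_of_ne h, Function.update_of_ne h]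

lemma flip_ne (x : Fin n → Bool) (i : Fin n) : flip x i ≠ x := by
  intro h
  have := congrFun h i
  unfold flip at this
  rw [Function.update_self] at this
  cases hx : x i <;> simp [hx] at this

lemma flip_inj {x : Fin n → Bool} {i j : Fin n} (h : flip x i = flip x j) : i = j := by
  by_contra hne
  have h1 := congrFun h i
  unfold flip at h1
  rw [Function.update_self, Function.update_of_ne hne] at h1
  cases hx : x i <;> simp [hx] at h1

lemma sum_flip (f : (Fin n → Bool) → ℝ) (i : Fin n) : ∑ x, f (flip x i) = ∑ x, f x :=
  Equiv.sum_comp (Function.Involutive.toPerm (fun x => flip x i) (fun x => flip_flip x i)) f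

/-- The form is at most `n` times the square of the norm. -/
lemma form_le_n (F : (Fin n → Bool) → Bool) (v : (Fin n → Bool) → ℝ) :
    form F v ≤ n * ∑ x, v x ^ 2 := by
  classical
  unfold form
  have h1 : ∀ x i, (if F (flip x i) ≠ F x then v x * v (flip x i) else 0) ≤
      (v x ^ 2 + v (flip x i) ^ 2) / 2 := by
    intro x i
    split_ifs
    · nlinarith [sq_nonneg (v x - v (flip x i))]
    · positivity
  refine (Finset.sum_le_sum fun x _ => Finset.sum_le_sum fun i _ => h1 x i).trans ?_
  rw [Finset.sum_comm]
  have h2 : ∀ i : Fin n, ∑ x, (v x ^ 2 + v (flip x i) ^ 2) / 2 = ∑ x, v x ^ 2 := by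
    intro i
    rw [← Finset.sum_div, Finset.sum_add_distrib, sum_flip (fun x => v x ^ 2) i]
    ring
  simp_rw [h2]
  rw [Finset.sum_const, Finset.card_univ, Fintype.card_fin, nsmul_eq_mul]

lemma bdd (F : (Fin n → Bool) → Bool) :
    BddAbove {r : ℝ | ∃ v : (Fin n → Bool) → ℝ, ∑ x, v x ^ 2 = 1 ∧ r = form F v} := by
  refine ⟨n, ?_⟩
  rintro r ⟨v, hv, rfl⟩
  have := form_le_n F v
  rwa [hv, mul_one] at this

lemma form_smul (F : (Fin n → Bool) → Bool) (c : ℝ) (v : (Fin n → Bool) → ℝ) :
    form F (fun x => c * v x) = c ^ 2 * form F v := by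
  classical
  unfold form
  rw [Finset.mul_sum]
  apply Finset.sum_congr rfl; intro x _
  rw [Finset.mul_sum]
  apply Finset.sum_congr rfl; intro i _
  split_ifs
  · ring
  · ring

lemma form_le_specSens (F : (Fin n → Bool) → Bool) (v : (Fin n → Bool) → ℝ) :
    form F v ≤ specSens F * ∑ x, v x ^ 2 := by
  rcases (Finset.sum_nonneg fun x (_ : x ∈ univ) => sq_nonneg (v x)).eq_or_lt with h | h
  · have h0 : ∀ x, v x = 0 := by
      intro x
      have := (Finset.sum_eq_zero_iff_of_nonneg fun x _ => sq_nonneg (v x)).1 h.symm x
        (Finset.mem_univ x)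
      exact pow_eq_zero_iff (two_ne_zero) |>.1 this
    rw [← h, mul_zero]
    unfold form
    apply le_of_eq
    apply Finset.sum_eq_zero; intro x _
    apply Finset.sum_eq_zero; intro i _
    rw [h0 x]; simp
  · set N := ∑ x, v x ^ 2 with hN
    have h1 : ∑ x, ((√N)⁻¹ * v x) ^ 2 = 1 := by
      simp_rw [mul_pow]
      rw [← Finset.mul_sum, ← hN, inv_pow, Real.sq_sqrt h.le]
      exact inv_mul_cancel₀ h.ne'
    have h2 : form F (fun x => (√N)⁻¹ * v x) ≤ specSens F :=
      le_csSup (bdd F) ⟨_, h1, rfl⟩
    rw [form_smul, inv_pow, Real.sq_sqrt h.le] at h2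
    have h3 := mul_le_mul_of_nonneg_right h2 h.le
    rw [mul_comm N⁻¹, mul_assoc, inv_mul_cancel₀ h.ne', mul_one] at h3
    exact h3

/-- The spectral sensitivity of every extension is at least `√n / 2`. -/
theorem lower (hn : 1 ≤ n) {F : (Fin n → Bool) → Bool} (hF : Extends F) :
    √n / 2 ≤ specSens F := by
  classical
  obtain ⟨x0, hx0, hmin⟩ : ∃ x, F x = true ∧ ∀ y, F y = true → ones x ≤ ones y := by
    have hne : (univ.filter fun x : Fin n → Bool => F x = true).Nonempty := by
      refine ⟨fun _ => true, ?_⟩
      rw [Finset.mem_filter]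
      refine ⟨Finset.mem_univ _, hF.high _ ?_⟩
      have : ones (fun _ : Fin n => true) = n := by
        unfold ones
        simp
      omega
    obtain ⟨x, hx, hm⟩ := Finset.exists_min_image _ ones hne
    rw [Finset.mem_filter] at hx
    exact ⟨x, hx.2, fun y hy => hm y (by rw [Finset.mem_filter]; exact ⟨Finset.mem_univ _, hy⟩)⟩
  set T := univ.filter fun i => x0 i = true with hT
  set s := T.card with hs
  have hs1 : ones x0 = s := rfl
  have hsn : n < 4 * s := by
    by_contra hle
    have := hF.low x0 (by rw [hs1]; omega)
    rw [hx0] at this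
    exact absurd this (by simp)
  have hflip : ∀ i ∈ T, F (flip x0 i) = false := by
    intro i hi
    by_contra hne
    have h1 : F (flip x0 i) = true := by simpa using hne
    have h2 := hmin _ h1
    have h3 : ones (flip x0 i) < ones x0 := by
      unfold ones
      apply Finset.card_lt_card
      rw [Finset.ssubset_iff_of_subset]
      · refine ⟨i, hi, ?_⟩
        rw [Finset.mem_filter]
        rintro ⟨_, h⟩
        unfold flip at h
        rw [Function.update_self] at h
        have := (Finset.mem_filter.1 hi).2
        rw [this] at h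
        exact absurd h (by simp)
      · intro j hj
        rw [Finset.mem_filter] at hj ⊢
        refine ⟨Finset.mem_univ _, ?_⟩
        by_cases hji : j = i
        · subst hji; exact (Finset.mem_filter.1 hi).2
        · have := hj.2
          unfold flip at this
          rwa [Function.update_of_ne hji] at this
    omega
  set U := T.image (fun i => flip x0 i) with hU
  have hUc : U.card = s := Finset.card_image_of_injective _ fun i j h => flip_inj h
  have hx0U : x0 ∉ U := by
    intro h
    obtain ⟨i, _, hi⟩ := Finset.mem_image.1 h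
    exact flip_ne x0 i hi
  set v : (Fin n → Bool) → ℝ := fun y => if y = x0 then √s else if y ∈ U then 1 else 0 with hv
  have v0 : v x0 = √s := by simp [hv]
  have v1 : ∀ i ∈ T, v (flip x0 i) = 1 := by
    intro i hi
    have h1 : flip x0 i ∈ U := Finset.mem_image_of_mem _ hi
    simp only [hv]
    rw [if_neg (flip_ne x0 i), if_pos h1]
  have vn : ∀ y, 0 ≤ v y := by
    intro y; simp only [hv]; split_ifs <;> positivity
  have hnorm : ∑ y, v y ^ 2 = 2 * s := by
    have h1 : ∀ y, v y ^ 2 = (if y = x0 then (s:ℝ) else 0) + (if y ∈ U then 1 else 0) := by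
      intro y
      simp only [hv]
      by_cases hy : y = x0
      · rw [if_pos hy, if_pos hy, if_neg (by rw [hy]; exact hx0U), Real.sq_sqrt (by positivity)]
        ring
      · rw [if_neg hy, if_neg hy]
        split_ifs <;> norm_num
    simp_rw [h1]
    rw [Finset.sum_add_distrib, Finset.sum_ite_eq', if_pos (Finset.mem_univ _),
      Finset.sum_ite_mem, Finset.univ_inter, Finset.sum_const, hUc, nsmul_eq_mul]
    ring
  have hform : 2 * (s * √s) ≤ form F v := by
    unfold form
    have hg : ∀ x i, 0 ≤ (if F (flip x i) ≠ F x then v x * v (flip x i) else 0) := by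
      intro x i
      split_ifs
      · exact mul_nonneg (vn _) (vn _)
      · exact le_rfl
    have h1 : ∑ x ∈ insert x0 U, ∑ i, (if F (flip x i) ≠ F x then v x * v (flip x i) else 0) ≤
        ∑ x, ∑ i, (if F (flip x i) ≠ F x then v x * v (flip x i) else 0) :=
      Finset.sum_le_sum_of_subset_of_nonneg (Finset.subset_univ _)
        fun x _ _ => Finset.sum_nonneg fun i _ => hg x i
    refine le_trans ?_ h1
    rw [Finset.sum_insert hx0U]
    have h2 : s * √s ≤ ∑ i, (if F (flip x0 i) ≠ F x0 then v x0 * v (flip x0 i) else 0) := by
      have h3 : ∑ i ∈ T, (if F (flip x0 i) ≠ F x0 then v x0 * v (flip x0 i) else 0) ≤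
          ∑ i, (if F (flip x0 i) ≠ F x0 then v x0 * v (flip x0 i) else 0) :=
        Finset.sum_le_sum_of_subset_of_nonneg (Finset.subset_univ _) fun i _ _ => hg x0 i
      refine le_trans (le_of_eq ?_) h3
      have h4 : ∀ i ∈ T, (if F (flip x0 i) ≠ F x0 then v x0 * v (flip x0 i) else 0) = √s := by
        intro i hi
        rw [if_pos (by rw [hflip i hi, hx0]; simp), v0, v1 i hi, mul_one]
      rw [Finset.sum_congr rfl h4, Finset.sum_const, nsmul_eq_mul]
    have h5 : s * √s ≤ ∑ x ∈ U, ∑ i, (if F (flip x i) ≠ F x then v x * v (flip x i) else 0) := by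
      rw [hU, Finset.sum_image (fun i _ j _ h => flip_inj h)]
      have h6 : ∀ i ∈ T, √s ≤ ∑ j, (if F (flip (flip x0 i) j) ≠ F (flip x0 i)
          then v (flip x0 i) * v (flip (flip x0 i) j) else 0) := by
        intro i hi
        refine le_trans (le_of_eq ?_) (Finset.single_le_sum (fun j _ => hg (flip x0 i) j)
          (Finset.mem_univ i))
        rw [flip_flip, if_pos (by rw [hflip i hi, hx0]; simp), v0, v1 i hi, one_mul]
      have h7 := Finset.sum_le_sum h6
      rw [Finset.sum_const, nsmul_eq_mul] at h7
      exact h7
    linarith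
  have h8 := form_le_specSens F v
  rw [hnorm] at h8
  have hspos : (0:ℝ) < s := by
    have : 0 < s := by omega
    exact_mod_cast this
  have h9 : √(s:ℝ) ≤ specSens F := by
    have h10 : 2 * (s * √s) ≤ specSens F * (2 * s) := hform.trans h8
    have h11 : (2 * (s:ℝ)) * √s ≤ (2 * s) * specSens F := by linarith
    exact le_of_mul_le_mul_left h11 (by linarith)
  refine le_trans ?_ h9
  rw [div_le_iff₀ (by norm_num)]
  apply Real.sqrt_le_iff.2
  constructor
  · positivity
  · rw [mul_pow, Real.sq_sqrt hspos.le]
    have : (n:ℝ) < 4 * s := by exact_mod_cast hsn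
    linarith

lemma ones_eq (x : Fin n → Bool) : (ones x : ℤ) = H54SS.cnt x := by
  unfold ones H54SS.cnt
  rw [Finset.card_filter]
  push_cast
  rfl

lemma flip_false {x : Fin n → Bool} {i : Fin n} (h : x i = false) : flip x i = H54SS.up x i := by
  unfold flip H54SS.up
  rw [h]; rfl

lemma flip_true {x : Fin n → Bool} {i : Fin n} (h : x i = true) : flip x i = H54SS.dn x i := by
  unfold flip H54SS.dn
  rw [h]; rfl

open Classical in
/-- The form of a threshold function of a monotone integer valued function. -/
lemma form_le {W : (Fin n → Bool) → ℤ} {L : ℝ} (hW : H54SS.NB W L)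
    (mono : ∀ x i, W (H54SS.dn x i) ≤ W (H54SS.up x i)) (θ : ℤ) (v : (Fin n → Bool) → ℝ) :
    form (fun x => decide (θ ≤ W x)) v ≤ L * ∑ x, v x ^ 2 := by
  set F : (Fin n → Bool) → Bool := fun x => decide (θ ≤ W x) with hF
  have h1 : ∀ i : Fin n, ∑ x, (if F (flip x i) ≠ F x then v x * v (flip x i) else 0) =
      2 * ∑ x, (if x i = false ∧ W x < θ ∧ θ ≤ W (H54SS.up x i) then
        v x * v (H54SS.up x i) else 0) := by
    intro i
    have h2 : ∀ x : Fin n → Bool, (if F (flip x i) ≠ F x then v x * v (flip x i) else 0) =
        (if x i = false ∧ W x < θ ∧ θ ≤ W (H54SS.up x i) then v x * v (H54SS.up x i) else 0) +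
        (if flip x i i = false ∧ W (flip x i) < θ ∧ θ ≤ W (H54SS.up (flip x i) i) then
          v (flip x i) * v (H54SS.up (flip x i) i) else 0) := by
      intro x
      cases hx : x i
      · have e1 : flip x i i = true := by unfold flip; rw [Function.update_self, hx]; rfl
        have e2 := flip_false hx
        have m1 := H54SS.le_up mono x i
        have hr : ¬ (flip x i i = false ∧ W (flip x i) < θ ∧ θ ≤ W (H54SS.up (flip x i) i)) := by
          rintro ⟨h, _⟩; rw [e1] at h; exact absurd h (by simp)
        rw [if_neg hr, add_zero, e2]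
        by_cases hc : W x < θ ∧ θ ≤ W (H54SS.up x i)
        · have hne : F (H54SS.up x i) ≠ F x := by
            simp only [hF]
            rw [decide_eq_true hc.2, decide_eq_false (not_le.2 hc.1)]
            simp
          rw [if_pos hne, if_pos ⟨rfl, hc⟩]
        · have hne : ¬ F (H54SS.up x i) ≠ F x := by
            simp only [hF, ne_eq, not_not]
            congr 1
            apply propext
            constructor
            · intro h
              by_contra hlt
              exact hc ⟨not_le.1 hlt, h⟩
            · intro h; exact h.trans m1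
          rw [if_neg hne, if_neg (fun h => hc h.2)]
      · have e2 := flip_true hx
        have e1 : flip x i i = false := by unfold flip; rw [Function.update_self, hx]; rfl
        have e3 : H54SS.up (flip x i) i = x := by rw [e2, H54SS.up_dn hx]
        have m1 := H54SS.dn_le mono x i
        have hr : ¬ ((true : Bool) = false ∧ W x < θ ∧ θ ≤ W (H54SS.up x i)) := by
          rintro ⟨h, _⟩; exact absurd h (by simp)
        rw [if_neg hr, zero_add, e3]
        by_cases hc : W (flip x i) < θ ∧ θ ≤ W x
        · have hne : F (flip x i) ≠ F x := by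
            simp only [hF]
            rw [decide_eq_true hc.2, decide_eq_false (not_le.2 hc.1)]
            simp
          rw [if_pos hne, if_pos ⟨e1, hc⟩, mul_comm]
        · have hne : ¬ F (flip x i) ≠ F x := by
            simp only [hF, ne_eq, not_not]
            congr 1
            apply propext
            constructor
            · intro h
              rw [e2] at h
              exact h.trans m1
            · intro h
              by_contra hlt
              exact hc ⟨not_le.1 hlt, h⟩
          rw [if_neg hne, if_neg (fun h => hc h.2)]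
    rw [Finset.sum_congr rfl fun x _ => h2 x, Finset.sum_add_distrib,
      sum_flip (fun y => if y i = false ∧ W y < θ ∧ θ ≤ W (H54SS.up y i) then
        v y * v (H54SS.up y i) else 0) i]
    ring
  have h3 : form F v = 2 * H54SS.S W θ v v := by
    unfold form H54SS.S
    rw [Finset.sum_comm, Finset.sum_congr rfl fun i _ => h1 i, ← Finset.mul_sum, Finset.sum_comm]
  have h4 : H54SS.S W θ v v = H54SS.S W θ (fun x => if W x < θ then v x else 0)
      (fun x => if W x < θ then 0 else v x) := by
    unfold H54SS.S
    apply Finset.sum_congr rfl; intro x _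
    apply Finset.sum_congr rfl; intro i _
    by_cases hc : x i = false ∧ W x < θ ∧ θ ≤ W (H54SS.up x i)
    · rw [if_pos hc, if_pos hc]
      beta_reduce
      rw [if_pos hc.2.1, if_neg (not_lt.2 hc.2.2)]
    · rw [if_neg hc, if_neg hc]
  have h5 := hW θ (fun x => if W x < θ then v x else 0) (fun x => if W x < θ then 0 else v x)
  rw [← h4, ← Finset.sum_add_distrib] at h5
  have h6 : ∀ x : Fin n → Bool, (if W x < θ then v x else 0) ^ 2 +
      (if W x < θ then 0 else v x) ^ 2 = v x ^ 2 := by
    intro x
    split_ifs <;> ring
  simp_rw [h6] at h5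
  rw [h3]
  linarith

/-- Monotone extensions of spectral sensitivity at most `5 √n`. -/
theorem upper (hn : 1 ≤ n) : ∃ F : (Fin n → Bool) → Bool, Extends F ∧
    (∀ x y, (∀ i, x i = true → y i = true) → F x = true → F y = true) ∧
    specSens F ≤ 5 * √n := by
  classical
  obtain ⟨m, k, h1, h2, h3⟩ : ∃ m k : ℕ, m * 2 ^ k ≤ n ∧ m ≤ 25 ∧
      ((k = 0 ∧ m = n) ∨ (13 ≤ m ∧ n < (m + 1) * 2 ^ k)) := by
    rcases lt_or_ge n 13 with h | h
    · exact ⟨n, 0, by simp, by omega, Or.inl ⟨rfl, rfl⟩⟩
    · have hq : n / 13 ≠ 0 := by
        have : 1 ≤ n / 13 := (Nat.one_le_div_iff (by norm_num)).2 h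
        omega
      set k := Nat.log 2 (n / 13) with hk
      have e1 : 2 ^ k ≤ n / 13 := Nat.pow_log_le_self 2 hq
      have e2 : n / 13 < 2 ^ (k + 1) := Nat.lt_pow_succ_log_self (by norm_num) _
      have e3 : 13 * 2 ^ k ≤ n := by
        have := (Nat.le_div_iff_mul_le (by norm_num)).1 e1
        linarith
      have e4 : n < 26 * 2 ^ k := by
        have h5 := (Nat.div_lt_iff_lt_mul (by norm_num : 0 < 13)).1 e2
        rw [pow_succ] at h5
        linarith
      have hp : 0 < 2 ^ k := by positivity
      refine ⟨n / 2 ^ k, k, Nat.div_mul_le_self n _, ?_, Or.inr ⟨?_, ?_⟩⟩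
      · have : n / 2 ^ k < 26 := (Nat.div_lt_iff_lt_mul hp).2 e4
        omega
      · exact (Nat.le_div_iff_mul_le hp).2 e3
      · have := Nat.lt_mul_div_succ n hp
        rw [mul_comm] at this
        exact this
  obtain ⟨W, hNB, mono, hle, hge⟩ := H54SS.exists_fin h1
  set θ : ℤ := (n / 4 : ℕ) + 1 with hθ
  set F : (Fin n → Bool) → Bool := fun x => decide (θ ≤ W x) with hF
  refine ⟨F, ⟨?_, ?_⟩, ?_, ?_⟩
  · intro x hx
    simp only [hF]
    apply decide_eq_true
    by_contra hlt
    push Not at hlt
    have g1 := hge x
    rw [← ones_eq] at g1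
    have g2 : W x ≤ (n / 4 : ℕ) := by linarith
    have g3 : ((n / 4 : ℕ) : ℤ) * 4 ≤ n := by exact_mod_cast Nat.div_mul_le_self n 4
    have g4 : (3 : ℤ) * n ≤ 4 * ones x := by exact_mod_cast hx
    rcases h3 with ⟨rfl, rfl⟩ | ⟨hm, hlt2⟩
    · have f5 : Nat.fib (0 + 5) = 5 := rfl
      rw [f5] at g1
      push_cast at g1
      have : (1:ℤ) ≤ m := by exact_mod_cast hn
      linarith
    · have f0 : (0:ℤ) ≤ Nat.fib (k + 5) := by positivity
      have g5 : (n:ℤ) < (m + 1) * 2 ^ k := by exact_mod_cast hlt2
      have g6 : (13:ℤ) * 2 ^ k ≤ m * 2 ^ k := by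
        apply mul_le_mul_of_nonneg_right _ (by positivity)
        exact_mod_cast hm
      have g7 : (m:ℤ) * 2 ^ k ≤ n := by exact_mod_cast h1
      have g8 : (0:ℤ) < 2 ^ k := by positivity
      nlinarith
  · intro x hx
    simp only [hF]
    apply decide_eq_false
    push Not
    have g1 := hle x
    rw [← ones_eq] at g1
    have g2 : ones x ≤ n / 4 := by omega
    have g3 : (ones x : ℤ) ≤ (n / 4 : ℕ) := by exact_mod_cast g2
    linarith
  · intro x y hxy hx
    simp only [hF, decide_eq_true_eq] at hx ⊢
    refine hx.trans ?_
    have key : ∀ t : Finset (Fin n), W x ≤ W (fun i => if i ∈ t then y i else x i) := by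
      intro t
      induction t using Finset.induction_on with
      | empty => simp
      | insert a t ha ih =>
        refine ih.trans ?_
        cases hya : y a
        · have hxa : x a = false := by
            by_contra hne
            have : x a = true := by simpa using hne
            rw [hxy a this] at hya
            exact absurd hya (by simp)
          apply le_of_eq
          congr 1
          funext i
          by_cases hi : i = a
          · subst hi
            rw [if_neg ha, if_pos (Finset.mem_insert_self _ _), hya, hxa]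
          · by_cases hit : i ∈ t
            · rw [if_pos hit, if_pos (Finset.mem_insert_of_mem hit)]
            · rw [if_neg hit, if_neg (by simp [hi, hit])]
        · refine (H54SS.le_up mono _ a).trans (le_of_eq ?_)
          congr 1
          funext i
          by_cases hi : i = a
          · subst hi
            rw [H54SS.up_self, if_pos (Finset.mem_insert_self _ _), hya]
          · unfold H54SS.up
            rw [Function.update_of_ne hi]
            by_cases hit : i ∈ t
            · rw [if_pos hit, if_pos (Finset.mem_insert_of_mem hit)]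
            · rw [if_neg hit, if_neg (by simp [hi, hit])]
    have h5 := key Finset.univ
    simpa using h5
  · have hL : (m : ℝ) * √2 ^ k ≤ 5 * √n := by
      have h4 : ((m : ℝ) * √2 ^ k) ^ 2 ≤ (5 * √n) ^ 2 := by
        have e1 : ((√2 : ℝ) ^ k) ^ 2 = 2 ^ k := by
          rw [← pow_mul, mul_comm k 2, pow_mul, Real.sq_sqrt (by norm_num)]
        rw [mul_pow, e1, mul_pow, Real.sq_sqrt (by positivity)]
        have e2 : (m:ℝ) * 2 ^ k ≤ n := by exact_mod_cast h1
        have e3 : (m:ℝ) ≤ 25 := by exact_mod_cast h2
        have e4 : (0:ℝ) ≤ m := by positivity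
        have e5 : (0:ℝ) ≤ n := by positivity
        nlinarith
      exact le_of_sq_le_sq h4 (by positivity)
    unfold specSens
    apply csSup_le
    · refine ⟨form F (Pi.single (fun _ => false) 1), Pi.single (fun _ => false) 1, ?_, rfl⟩
      rw [Finset.sum_eq_single (fun _ : Fin n => false)]
      · simp
      · intro b _ hb
        rw [Pi.single_eq_of_ne hb]; ring
      · intro h; exact absurd (Finset.mem_univ _) h
    · rintro r ⟨v, hv, rfl⟩
      have h5 := form_le hNB mono θ v
      rw [hv, mul_one] at h5
      exact h5.trans hL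

/-- For every `n ≥ 1` the least spectral sensitivity of a total Boolean function on `n` bits that
extends the gap majority function is between `√n / 2` and `5 √n`, and the upper bound is attained
by a monotone function. -/
theorem result (n : ℕ) (hn : 1 ≤ n) :
    (∀ F : (Fin n → Bool) → Bool, Extends F → √n / 2 ≤ specSens F) ∧
    ∃ F : (Fin n → Bool) → Bool, Extends F ∧
      (∀ x y, (∀ i, x i = true → y i = true) → F x = true → F y = true) ∧
      specSens F ≤ 5 * √n :=
  ⟨fun _ hF => lower hn hF, upper hn⟩

end Pool.Agent.Results.MP_1e0d25_lc.SpectralSensitivity
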